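import Pool.Agent.Q92.PJ.Haar
import Pool.Agent.Q92.PJ.Grp
import Pool.Agent.Y800.Diag

/-!
# Automorphy of p-adic Galois representations with few adjoint Frobenius traces

Let `K` be a number field and `R` a continuous semisimple representation of its absolute Galois group over the
algebraic closure of `ℚ_p`, of dimension `m`. Assume that the adjoint traces `tr R(Frob_v) tr R(Frob_v)⁻¹` at
the places `v` of `K` outside a set of upper density at most `c`, `c m⁴ < 1`, lie in a finite set. (Nothing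
else is assumed: no condition on the places above `p`, on the Hodge-Tate weights, the residual representation
or the complex conjugations.)

Then the projective image of `R` is finite, with an explicit bound; for every prime number `q` there is an
extension `L_q` of `K` of degree prime to `q` over which `R` is automorphic; `R` is automorphic over every
extension `L` for which the image of `Γ_L` in `PGL_m` is nilpotent; and `R` is automorphic over `K` if the orders of the
quotients of the eigenvalues of `R(Frob_v)` are powers of one prime number `q` for almost all `v`, or more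
generally for all `v` outside a set of sufficiently small upper density.
-/

set_option autoImplicit false
set_option linter.all false

namespace Pool.Agent.Results.MP_adf543_nt.FewTraces

open Filter NumberField IsDedekindDomain
open Pool.Agent.W401.Cheb (GK IsFrob)
open Pool.Agent.Q92.PL (KnownTheorems)

variable {K : Type} [Field K] [NumberField K] {p : ℕ} [Fact p.Prime] {m : ℕ}

/-- The number of places in `Z` of norm at most `x` is at most `c π(x)` for all large `x`. -/
def DensityLE (Z : Set (HeightOneSpectrum (𝓞 K))) (c : ℝ) : Prop :=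
  ∀ᶠ N : ℕ in atTop, ({v : HeightOneSpectrum (𝓞 K) | Ideal.absNorm v.asIdeal ≤ N ∧ v ∈ Z}.ncard : ℝ) ≤
    c * (Nat.primeCounting N : ℝ)

/-- The adjoint trace of `g`: the trace of the endomorphism `X ↦ R(g) X R(g)⁻¹` of the matrix algebra. -/
noncomputable def adjointTrace (R : GK K →* GL (Fin m) (PadicAlgCl p)) (g : GK K) : PadicAlgCl p :=
  (R g : Matrix (Fin m) (Fin m) (PadicAlgCl p)).trace *
    (R g⁻¹ : Matrix (Fin m) (Fin m) (PadicAlgCl p)).trace

/-- The adjoint traces of the Frobenius elements lie in the finite set `T`, for all places outside a set of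
upper density at most `c`. -/
def AdjointTracesIn (R : GK K →* GL (Fin m) (PadicAlgCl p)) (T : Finset (PadicAlgCl p)) (c : ℝ) : Prop :=
  ∃ Z : Set (HeightOneSpectrum (𝓞 K)), DensityLE Z c ∧
    ∀ v, v ∉ Z → ∀ σ, IsFrob v σ → adjointTrace R σ ∈ T

/-- Every stable subspace has a stable complement. -/
def IsSemisimple (R : GK K →* GL (Fin m) (PadicAlgCl p)) : Prop :=
  ∀ U : Submodule (PadicAlgCl p) (Fin m → PadicAlgCl p),
    (∀ g, ∀ u ∈ U, (R g : Matrix (Fin m) (Fin m) (PadicAlgCl p)).mulVec u ∈ U) →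
    ∃ U' : Submodule (PadicAlgCl p) (Fin m → PadicAlgCl p),
      (∀ g, ∀ u ∈ U', (R g : Matrix (Fin m) (Fin m) (PadicAlgCl p)).mulVec u ∈ U') ∧ IsCompl U U'

/-- The order of the quotients of the eigenvalues of `R(g)` is a power of `q`. -/
def PowerRatios (R : GK K →* GL (Fin m) (PadicAlgCl p)) (q : ℕ) (g : GK K) : Prop :=
  ∃ j : ℕ, ∀ a b : PadicAlgCl p,
    (R g : Matrix (Fin m) (Fin m) (PadicAlgCl p)).charpoly.IsRoot a →
    (R g : Matrix (Fin m) (Fin m) (PadicAlgCl p)).charpoly.IsRoot b → a ^ q ^ j = b ^ q ^ j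

/-- The complex representation obtained from `R` by the isomorphism `ι`. -/
noncomputable def rep (ι : PadicAlgCl p ≃+* ℂ) (R : GK K →* GL (Fin m) (PadicAlgCl p)) :
    Representation ℂ (GK K) (Fin m → ℂ) where
  toFun g := Matrix.toLin' ((R g : Matrix (Fin m) (Fin m) (PadicAlgCl p)).map ι)
  map_one' := by
    rw [map_one, Units.val_one, Matrix.map_one _ (map_zero ι) (map_one ι), Matrix.toLin'_one]
    rfl
  map_mul' g h := by
    rw [map_mul, Units.val_mul, Matrix.map_mul, Matrix.toLin'_mul]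
    rfl

/-- `R` is automorphic over the field of the subgroup `H`, in the sense of every predicate for which the
known theorems hold. -/
def AutomorphicOver (ι : PadicAlgCl p ≃+* ℂ) (R : GK K →* GL (Fin m) (PadicAlgCl p))
    (H : Subgroup (GK K)) : Prop :=
  ∀ aut : Subgroup (GK K) → Submodule ℂ (Fin m → ℂ) → Prop, KnownTheorems (rep ι R) aut → aut H ⊤

open Pool.Agent.Y800 Pool.Agent.Q92.FP Pool.Agent.Q92.DS Pool.Agent.Q92.PJ in
/-- an element acting by a scalar is a period -/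
theorem mem_Per_of_scalar (R : GK K →* GL (Fin m) (PadicAlgCl p)) (g : GK K) (χ : PadicAlgCl p)
    (h : (R g : Matrix (Fin m) (Fin m) (PadicAlgCl p)) = χ • 1) : g ∈ Per (adc R) := by
  intro x
  have h1 : (R g : Matrix (Fin m) (Fin m) (PadicAlgCl p)) *
      (R g⁻¹ : Matrix (Fin m) (Fin m) (PadicAlgCl p)) = 1 := by
    rw [← Units.val_mul, ← map_mul, mul_inv_cancel, map_one, Units.val_one]
  unfold adc
  rw [mul_inv_rev, map_mul, map_mul, Units.val_mul, Units.val_mul, h, mul_smul_comm, mul_one,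
    Matrix.trace_smul, smul_mul_assoc, ← mul_smul_comm, ← Matrix.trace_smul, ← smul_mul_assoc]
  have h2 : χ • (R g⁻¹ : Matrix (Fin m) (Fin m) (PadicAlgCl p)) = 1 := by
    rw [← h1, h, smul_mul_assoc, one_mul]
  rw [h2, one_mul]

open Pool.Agent.Y800 Pool.Agent.Q92.FP Pool.Agent.Q92.DS Pool.Agent.Q92.PJ in
/-- powers of an element of finite order modulo the scalars -/
theorem pow_scalar (hm : 0 < m) (M : Matrix (Fin m) (Fin m) (PadicAlgCl p)) (k : ℕ) (hk : 0 < k)
    (χ : PadicAlgCl p) (hχ : χ ≠ 0) (hM : M ^ k = χ • 1) (Q : ℕ)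
    (hQ : ∀ a b : PadicAlgCl p, M.charpoly.IsRoot a → M.charpoly.IsRoot b → a ^ Q = b ^ Q) :
    ∃ β : PadicAlgCl p, M ^ Q = β • 1 := by
  classical
  obtain ⟨δ, hδ⟩ := IsAlgClosed.exists_pow_nat_eq χ hk
  have hδ0 : δ ≠ 0 := by
    rintro rfl
    rw [zero_pow hk.ne'] at hδ
    exact hχ hδ.symm
  obtain ⟨b, d, hbd⟩ := diag_of_pow_eq_one (δ⁻¹ • M) k hk (by
    rw [smul_pow, hM, smul_smul, ← hδ, ← mul_pow, inv_mul_cancel₀ hδ0, one_pow, one_smul])
  have hb : ∀ i, M.mulVec (b i) = (δ * d i) • b i := by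
    intro i
    have h1 := hbd i
    rw [Matrix.smul_mulVec] at h1
    have h2 := congrArg (fun v => δ • v) h1
    simp only [smul_smul] at h2
    rw [mul_inv_cancel₀ hδ0, one_smul] at h2
    exact h2
  have hroot : ∀ i, M.charpoly.IsRoot (δ * d i) := by
    intro i
    have h3 : (Matrix.scalar (Fin m) (δ * d i) - M).det = 0 := by
      rw [← Matrix.exists_mulVec_eq_zero_iff]
      refine ⟨b i, b.ne_zero i, ?_⟩
      rw [Matrix.sub_mulVec, hb i, Matrix.scalar_apply, ← Matrix.smul_one_eq_diagonal,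
        Matrix.smul_mulVec, Matrix.one_mulVec, sub_self]
    rw [← Matrix.eval_charpoly] at h3
    exact h3
  refine ⟨(δ * d ⟨0, hm⟩) ^ Q, ?_⟩
  have hpow : ∀ (i : Fin m) (N : ℕ), (M ^ N).mulVec (b i) = (δ * d i) ^ N • b i := by
    intro i N
    induction N with
    | zero => rw [pow_zero, pow_zero, Matrix.one_mulVec, one_smul]
    | succ N ih => rw [pow_succ, ← Matrix.mulVec_mulVec, hb i, Matrix.mulVec_smul, ih, smul_smul,
        pow_succ, mul_comm]
  apply Matrix.toLin'.injective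
  refine b.ext fun i => ?_
  rw [Matrix.toLin'_apply, Matrix.toLin'_apply, hpow, Matrix.smul_mulVec, Matrix.one_mulVec,
    hQ _ _ (hroot i) (hroot ⟨0, hm⟩)]

open Pool.Agent.Y800 Pool.Agent.Q92.FP Pool.Agent.Q92.DS Pool.Agent.Q92.PJ in
/-- automorphy when the projective image of `H` is nilpotent -/
theorem aut_nil (hm : 0 < m) (ι : PadicAlgCl p ≃+* ℂ) (R : GK K →* GL (Fin m) (PadicAlgCl p))
    (N : Subgroup (GK K)) (hNn : N.Normal) (hN : IsOpen (N : Set (GK K)))
    (hsc : ∀ g ∈ N, ∃ χ : PadicAlgCl p, (R g : Matrix (Fin m) (Fin m) (PadicAlgCl p)) = χ • 1)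
    (H : Subgroup (GK K)) (hH : IsOpen (H : Set (GK K)))
    (hnil : Group.IsNilpotent (H ⧸ N.subgroupOf H)) : AutomorphicOver ι R H := by
  intro aut hk
  haveI : Finite (GK K ⧸ N) := Subgroup.quotient_finite_of_isOpen _ hN
  haveI : N.FiniteIndex := Subgroup.finiteIndex_of_finite_quotient
  haveI : Finite (H ⧸ N.subgroupOf H) := inferInstance
  haveI : Nonempty (Fin m) := ⟨⟨0, hm⟩⟩
  refine aut_of_nilpotent (rep ι R) H (N.subgroupOf H) ?_ ?_ hnil aut hk
  · have : (N.subgroupOf H).map H.subtype = N ⊓ H := Subgroup.subgroupOf_map_subtype _ _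
    rw [this, Subgroup.coe_inf]
    exact hN.inter hH
  · intro a ha
    obtain ⟨χ, hχ⟩ := hsc a (Subgroup.mem_subgroupOf.1 ha)
    refine ⟨ι χ, fun v => ?_⟩
    show Matrix.toLin' ((R (a : GK K) : Matrix (Fin m) (Fin m) (PadicAlgCl p)).map ι) v = _
    have h1 : ((R (a : GK K) : Matrix (Fin m) (Fin m) (PadicAlgCl p)).map ι) =
        ι χ • (1 : Matrix (Fin m) (Fin m) ℂ) := by
      rw [hχ]
      ext i j
      simp only [Matrix.map_apply, Matrix.smul_apply, smul_eq_mul, map_mul, Matrix.one_apply]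
      split_ifs <;> simp
    rw [h1, Matrix.toLin'_apply, Matrix.smul_mulVec, Matrix.one_mulVec]

/-- automorphy when the elements of `H` have `q`-power order modulo `N` -/
theorem aut_pgroup (hm : 0 < m) (ι : PadicAlgCl p ≃+* ℂ) (R : GK K →* GL (Fin m) (PadicAlgCl p))
    (N : Subgroup (GK K)) (hNn : N.Normal) (hN : IsOpen (N : Set (GK K)))
    (hsc : ∀ g ∈ N, ∃ χ : PadicAlgCl p, (R g : Matrix (Fin m) (Fin m) (PadicAlgCl p)) = χ • 1)
    (H : Subgroup (GK K)) (hH : IsOpen (H : Set (GK K))) (q : ℕ) (hq : q.Prime)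
    (hp : ∀ g ∈ H, ∃ j : ℕ, g ^ q ^ j ∈ N) : AutomorphicOver ι R H := by
  haveI : Fact q.Prime := ⟨hq⟩
  haveI : Finite (GK K ⧸ N) := Subgroup.quotient_finite_of_isOpen _ hN
  haveI : N.FiniteIndex := Subgroup.finiteIndex_of_finite_quotient
  haveI : Finite (H ⧸ N.subgroupOf H) := inferInstance
  have hpg : IsPGroup q (H ⧸ N.subgroupOf H) := by
    intro x
    induction x using QuotientGroup.induction_on with
    | H x =>
      obtain ⟨j, hj⟩ := hp x x.2
      refine ⟨j, ?_⟩
      rw [← QuotientGroup.mk_pow, QuotientGroup.eq_one_iff, Subgroup.mem_subgroupOf]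
      exact hj
  exact aut_nil hm ι R N hNn hN hsc H hH hpg.isNilpotent

/-- a quotient in which the lower central series vanishes -/
theorem nilpotent_of_series (N H : Subgroup (GK K)) [N.Normal] (r : ℕ) (h : H.lowerCentralSeries r ≤ N) :
    Group.IsNilpotent (H ⧸ N.subgroupOf H) := by
  rw [Subgroup.nilpotent_iff_lowerCentralSeries]
  refine ⟨r, ?_⟩
  have e : (⊤ : Subgroup (H ⧸ N.subgroupOf H)) =
      (⊤ : Subgroup H).map (QuotientGroup.mk' (N.subgroupOf H)) := by
    rw [← MonoidHom.range_eq_map, MonoidHom.range_eq_top.2 (QuotientGroup.mk'_surjective _)]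
  rw [e, ← Subgroup.map_lowerCentralSeries, Subgroup.map_eq_bot_iff, QuotientGroup.ker_mk']
  intro x hx
  rw [Subgroup.mem_subgroupOf]
  refine h ?_
  rw [← Subgroup.top_subtype_lowerCentralSeries]
  exact ⟨x, hx, rfl⟩

open Pool.Agent.Y800 Pool.Agent.Q92.FP Pool.Agent.Q92.DS Pool.Agent.Q92.PJ in
/-- **Representations with few adjoint Frobenius traces.** -/
theorem result (hm : 0 < m) (R : GK K →* GL (Fin m) (PadicAlgCl p)) (hR : Continuous R)
    (hss : IsSemisimple R) (T : Finset (PadicAlgCl p)) (c : ℝ) (hc : c * m ^ 4 < 1)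
    (hfew : AdjointTracesIn R T c) (ι : PadicAlgCl p ≃+* ℂ) :
    ∃ N : Subgroup (GK K), N.Normal ∧ IsOpen (N : Set (GK K)) ∧
      (N.index : ℝ) * (1 - c * m ^ 4) ≤ (T.card : ℝ) ^ (m ^ 4) ∧
      (∀ g, g ∈ N ↔ ∃ χ : PadicAlgCl p, (R g : Matrix (Fin m) (Fin m) (PadicAlgCl p)) = χ • 1) ∧
      (∀ q : ℕ, q.Prime → ∃ H : Subgroup (GK K), IsOpen (H : Set (GK K)) ∧ N ≤ H ∧ ¬ q ∣ H.index ∧
        AutomorphicOver ι R H) ∧
      (∀ (H : Subgroup (GK K)) (r : ℕ), IsOpen (H : Set (GK K)) → H.lowerCentralSeries r ≤ N →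
        AutomorphicOver ι R H) ∧
      ∀ (q : ℕ) (Z : Set (HeightOneSpectrum (𝓞 K))) (b : ℝ), q.Prime → b * N.index < 1 →
        DensityLE Z b → (∀ v, v ∉ Z → ∀ σ, IsFrob v σ → PowerRatios R q σ) → AutomorphicOver ι R ⊤ := by
  classical
  obtain ⟨Z, hZ, hT⟩ := hfew
  set N : Subgroup (GK K) := Per (adc R) with hNdef
  haveI hNn : N.Normal := Per_normal _ (adc_comm R)
  have hN : IsOpen (N : Set (GK K)) := (open_PerK R hR T Z c hc hZ hT).1
  have hsc : ∀ g ∈ N, ∃ χ : PadicAlgCl p, χ ≠ 0 ∧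
      (R g : Matrix (Fin m) (Fin m) (PadicAlgCl p)) = χ • 1 := fun g hg => scalar_of_Per hm R hss hg
  haveI hfin : Finite (GK K ⧸ N) := Subgroup.quotient_finite_of_isOpen _ hN
  refine ⟨N, hNn, hN, (open_PerK R hR T Z c hc hZ hT).2 hm,
    fun g => ⟨fun hg => ?_, fun ⟨χ, hχ⟩ => mem_Per_of_scalar R g χ hχ⟩, ?_, fun H r hH hr =>
      aut_nil hm ι R N hNn hN (fun g hg => let ⟨χ, _, h⟩ := hsc g hg; ⟨χ, h⟩) H hH
        (nilpotent_of_series N H r hr), ?_⟩
  · obtain ⟨χ, -, hχ⟩ := hsc g hg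
    exact ⟨χ, hχ⟩
  · intro q hq
    haveI : Fact q.Prime := ⟨hq⟩
    let S : Sylow q (GK K ⧸ N) := default
    set H : Subgroup (GK K) := (S : Subgroup (GK K ⧸ N)).comap (QuotientGroup.mk' N) with hH
    have hle : N ≤ H := by
      intro x hx
      rw [hH, Subgroup.mem_comap]
      have : QuotientGroup.mk' N x = 1 := (QuotientGroup.eq_one_iff x).2 hx
      rw [this]
      exact Subgroup.one_mem _
    have ho : IsOpen (H : Set (GK K)) := Subgroup.isOpen_mono hle hN
    refine ⟨H, ho, hle, ?_, aut_pgroup hm ι R N hNn hN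
      (fun g hg => let ⟨χ, _, h⟩ := hsc g hg; ⟨χ, h⟩) H ho q hq fun g hg => ?_⟩
    · rw [hH, Subgroup.index_comap_of_surjective _ (QuotientGroup.mk'_surjective _)]
      exact S.not_dvd_index
    · have h1 : QuotientGroup.mk' N g ∈ (S : Subgroup (GK K ⧸ N)) := hg
      obtain ⟨j, hj⟩ := S.isPGroup' ⟨_, h1⟩
      refine ⟨j, ?_⟩
      have h2 : (QuotientGroup.mk' N g) ^ q ^ j = 1 := congrArg Subtype.val hj
      rw [← map_pow] at h2
      exact (QuotientGroup.eq_one_iff _).1 h2
  · intro q Z' c' hq hc' hZ' hrat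
    refine aut_pgroup hm ι R N hNn hN (fun g hg => let ⟨χ, _, h⟩ := hsc g hg; ⟨χ, h⟩) ⊤ isOpen_univ q hq
      fun g _ => ?_
    -- the set of the elements which are not of `q`-power order modulo `N`
    set C : Set (GK K) := {x | ¬ ∃ j : ℕ, x ^ q ^ j ∈ N} with hC
    have hCconj : ∀ σ ∈ C, ∀ τ : GK K, τ * σ * τ⁻¹ ∈ C := by
      rintro σ hσ τ ⟨j, hj⟩
      apply hσ
      refine ⟨j, ?_⟩
      rw [conj_pow] at hj
      have := hNn.conj_mem _ hj τ⁻¹
      simpa [mul_assoc] using this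
    have hCN : ∀ σ ∈ C, ∀ u ∈ N, σ * u ∈ C := by
      rintro σ hσ u hu ⟨j, hj⟩
      apply hσ
      refine ⟨j, ?_⟩
      rw [← QuotientGroup.eq_one_iff, QuotientGroup.mk_pow, QuotientGroup.mk_mul,
        (QuotientGroup.eq_one_iff u).2 hu, mul_one] at hj
      rw [← QuotientGroup.eq_one_iff, QuotientGroup.mk_pow]
      exact hj
    have hkey := cheb_leK N hN C hCconj hCN Z' c' hZ' (by
      rintro v hv σ hσ hσC
      apply hσC
      obtain ⟨j, hj⟩ := hrat v hv σ hσ
      have h3 : σ ^ Nat.card (GK K ⧸ N) ∈ N := by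
        rw [← QuotientGroup.eq_one_iff, QuotientGroup.mk_pow]
        exact pow_card_eq_one'
      obtain ⟨χ, hχ0, hχ⟩ := hsc _ h3
      rw [map_pow, Units.val_pow_eq_pow_val] at hχ
      obtain ⟨β, hβ⟩ := pow_scalar hm _ _ Nat.card_pos χ hχ0 hχ (q ^ j) hj
      refine ⟨j, mem_Per_of_scalar R _ β ?_⟩
      rw [map_pow, Units.val_pow_eq_pow_val]
      exact hβ)
    by_contra hcon
    have hgC : g ∈ C := hcon
    have h1 : 1 ≤ ((QuotientGroup.mk : GK K → GK K ⧸ N) '' C).ncard := by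
      exact (Set.ncard_pos (Set.toFinite _)).2 ⟨_, ⟨g, hgC, rfl⟩⟩
    have hcard : (0 : ℝ) < (Nat.card (GK K ⧸ N) : ℝ) := by exact_mod_cast Nat.card_pos
    rw [div_le_iff₀ hcard] at hkey
    have h2 : (1 : ℝ) ≤ (((QuotientGroup.mk : GK K → GK K ⧸ N) '' C).ncard : ℝ) := by exact_mod_cast h1
    have h3 : c' * (Nat.card (GK K ⧸ N) : ℝ) < 1 := hc'
    linarith

end Pool.Agent.Results.MP_adf543_nt.FewTraces
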