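import Mathlib
import Pool.Agent.Q112.PI.Odd

/-!
# Automorphy of odd representations of rank two which are potentially invariant up to twist

`K` is a CM field with solvable Galois closure over `ℚ`, `W` and `H` are the absolute Galois groups
of `ℚ` and `K`, `p ≥ 5`, `k` is an algebraic closure of the field of `p`-adic numbers, `c` is a
complex conjugation in `W`, `L` is a finite Galois extension of `ℚ` containing `K` and `A` its
absolute Galois group. Let `ρ : H → GL₂(k)` be potentially semistable and polarized with two
different Hodge-Tate weights at some embedding. If over `L` the representation `ρ` is irreducible,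
without nontrivial selftwist, isomorphic to a twist of each of its conjugates under `W`, and
conjugation by `c` changes its projectivisation, then `ρ` is a twist of the restriction of the
representation of a classical newform, and it is automorphic.
-/

set_option autoImplicit false

namespace Pool.Agent.Results.MP_adf543_nt.InvariantRankTwo

open Matrix Q112PI

variable {W : Type} [Group W] {k : Type} [Field k]

/-- The published theorems. `good`: continuous potentially semistable representations of `H` with
`ρ^∨ ≅ ρ^c ⊗ Ψ` as in Q1 and with two different Hodge-Tate weights at some embedding; `geoQ`: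
continuous representations of `W` which are unramified almost everywhere and de Rham at `p` with
different Hodge-Tate weights; `modQ`: twists of the representations of classical newforms of weight
at least two; `aut`: the representations `ρ_π` of the algebraic essentially conjugate self-dual
cuspidal automorphic representations `π` of `GL₂` over `K`. -/
structure KnownTheorems (H : Subgroup W) (c : W) (geoQ modQ : (W →* GL (Fin 2) k) → Prop)
    (good aut : (H →* GL (Fin 2) k) → Prop) : Prop where
  /-- Tate, Patrikis: a projective representation of `W` whose restriction to the open subgroup `H`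
  is the projectivisation of a representation `ρ` with `good ρ` lifts to a geometric
  representation -/
  lift : ∀ (P : W → GL (Fin 2) k) (ρ : H →* GL (Fin 2) k), IsProj P → good ρ →
    (∀ h : H, P h = ρ h) → ∃ ρ₀ : W →* GL (Fin 2) k, geoQ ρ₀ ∧
      ∀ g : W, ∃ z : kˣ, (ρ₀ g : Matrix (Fin 2) (Fin 2) k) = (z : k) • (P g : Matrix _ _ k)
  /-- the Fontaine-Mazur conjecture for odd irreducible representations of `W` of dimension two with
  different Hodge-Tate weights (Kisin, Emerton, Pan) -/
  fontaine_mazur : ∀ ρ₀ : W →* GL (Fin 2) k, geoQ ρ₀ → Irr ρ₀ →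
    (ρ₀ c : Matrix (Fin 2) (Fin 2) k).det = -1 → modQ ρ₀
  /-- solvable base change (Langlands) to `K`, and twist by an algebraic Hecke character -/
  base_change : ∀ (ρ₀ : W →* GL (Fin 2) k) (ρ : H →* GL (Fin 2) k), modQ ρ₀ → good ρ →
    IsTwist (ρ₀.comp H.subtype) ρ → aut ρ

theorem result [IsAlgClosed k] {H A : Subgroup W} [A.Normal] (hAH : A ≤ H) {c : W}
    (hc : c * c = 1) {geoQ modQ : (W →* GL (Fin 2) k) → Prop}
    {good aut : (H →* GL (Fin 2) k) → Prop} (known : KnownTheorems H c geoQ modQ good aut)
    (ρ : H →* GL (Fin 2) k) (hgood : good ρ)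
    (hirr : Irr (ρ.comp (Subgroup.inclusion hAH)))
    (hns : NoSelfTwist (ρ.comp (Subgroup.inclusion hAH)))
    (hinv : InvUpToTwist (ρ.comp (Subgroup.inclusion hAH)))
    (hodd : ¬ ∃ χ : A →* kˣ, ∀ a : A,
      (ρ (Subgroup.inclusion hAH (MulAut.conjNormal c a)) : Matrix (Fin 2) (Fin 2) k)
        = (χ a : k) • (ρ (Subgroup.inclusion hAH a) : Matrix (Fin 2) (Fin 2) k)) :
    (∃ ρ₀ : W →* GL (Fin 2) k, modQ ρ₀ ∧ IsTwist (ρ₀.comp H.subtype) ρ) ∧ aut ρ := by
  obtain ⟨P, hP, hPρ⟩ := exists_proj hAH ρ hirr hns hinv
  obtain ⟨ρ₀, hρ₀, hlift⟩ := known.lift P ρ hP hgood hPρ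
  have htw : IsTwist (ρ₀.comp H.subtype) ρ := by
    refine twist_of_lift ρ ρ₀ fun x => ?_
    obtain ⟨z, hz⟩ := hlift x
    exact ⟨z, by rw [hz, hPρ]⟩
  have hirr0 : Irr ρ₀ := by
    obtain ⟨χ, hχ⟩ := htw
    intro U hU
    apply hirr U
    intro a u hu
    have h1 := hχ (Subgroup.inclusion hAH a)
    show (ρ (Subgroup.inclusion hAH a) : Matrix (Fin 2) (Fin 2) k) *ᵥ u ∈ U
    rw [h1, Matrix.smul_mulVec]
    exact U.smul_mem _ (hU _ u hu)
  have hmod : modQ ρ₀ := known.fontaine_mazur ρ₀ hρ₀ hirr0 (det_extension hAH htw hc hodd)
  exact ⟨⟨ρ₀, hmod, htw⟩, known.base_change ρ₀ ρ hmod hgood htw⟩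

end Pool.Agent.Results.MP_adf543_nt.InvariantRankTwo
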