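import Mathlib
import Pool.Agent.Q112.FL.Imp

/-!
# Geometric Galois representations which become sums of twists over a nilpotent extension

`K` is a CM field, `W` its absolute Galois group, `K'/K` a Galois extension with nilpotent group and
`A` the absolute Galois group of `K'`. `S_i` are the Galois representations of cuspidal automorphic
representations `π_i` of general linear groups over `K` (for instance the symmetric powers of a
Hilbert modular form of the maximal totally real subfield which is not of CM type), without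
nontrivial selftwists over `K'`. If `R` is an irreducible representation of `W` such that all the
irreducible constituents of `R` over `K'` are twists of some `S_i`, then `R` is induced, by cyclic
steps of prime degree, from a twist of some `S_i` over a field between `K` and `K'`, so it is
automorphic.
-/

set_option autoImplicit false

namespace Pool.Agent.Results.MP_adf543_nt.TwistsOverNilpotent

variable {W V : Type} [Group W] [AddCommGroup V] [Module ℂ V]

/-- `U` is stable under `H`. -/
def Stable (R : Representation ℂ W V) (H : Subgroup W) (U : Submodule ℂ V) : Prop :=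
  ∀ h ∈ H, ∀ u ∈ U, R h u ∈ U

/-- `U` is an irreducible representation of `H`. -/
def Irr (R : Representation ℂ W V) (H : Subgroup W) (U : Submodule ℂ V) : Prop :=
  Stable R H U ∧ U ≠ ⊥ ∧ ∀ U', U' ≤ U → Stable R H U' → U' = ⊥ ∨ U' = U

/-- The representation `U` of `H` is induced by the representation `U₀` of `M`: it is the direct sum
of the translates of `U₀` (`M` is a normal subgroup of `H` here). -/
def IsInduced (R : Representation ℂ W V) (M H : Subgroup W) (U₀ U : Submodule ℂ V) : Prop :=
  ⨆ h ∈ H, U₀.map (R h) = U ∧ Disjoint U₀ (⨆ h ∈ (H : Set W) \ M, U₀.map (R h))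

/-- The representation `U` of `H` is isomorphic to `χ ⊗ S` with a character `χ` of `H`. -/
def IsTwist {E : Type} [AddCommGroup E] [Module ℂ E] (R : Representation ℂ W V)
    (S : Representation ℂ W E) (H : Subgroup W) (U : Submodule ℂ V) : Prop :=
  ∃ (χ : H →* ℂˣ) (e : E ≃ₗ[ℂ] U), ∀ (h : H) (v : E),
    R (h : W) (e v : V) = (χ h : ℂ) • (e (S (h : W) v) : V)

/-- The restriction of `S` to `A` has no nontrivial selftwist `S ≅ η ⊗ S`. -/
def NoSelfTwist {E : Type} [AddCommGroup E] [Module ℂ E] (S : Representation ℂ W E)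
    (A : Subgroup W) : Prop :=
  ∀ η : A →* ℂˣ, (∃ T : E ≃ₗ[ℂ] E, ∀ (a : A) (v : E),
    T (S (a : W) v) = (η a : ℂ) • S (a : W) (T v)) → η = 1

/-- The known theorems on automorphy. `H` runs through the subgroups of `W` of finite index which
contain `A`; the field `K_H` of `H` is reached from `K` by cyclic extensions of prime degree, as the
Galois group of `K'/K` is nilpotent. `aut H U` says that the representation `U` of `H` is
automorphic: there is an isobaric automorphic representation of the general linear group over `K_H`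
whose Satake parameters are the eigenvalues of Frobenius on `U` at almost all places. -/
structure KnownTheorems {ι : Type} {E : ι → Type} [∀ i, AddCommGroup (E i)] [∀ i, Module ℂ (E i)]
    (R : Representation ℂ W V) (A : Subgroup W) (S : ∀ i, Representation ℂ W (E i))
    (aut : Subgroup W → Submodule ℂ V → Prop) : Prop where
  /-- base change of `π_i` to `K_H` (Arthur, Clozel) and twist by a character (class field
  theory) -/
  twist : ∀ H U i, A ≤ H → Stable R H U → IsTwist R (S i) H U → aut H U
  /-- automorphic induction from a cyclic extension of prime degree (Arthur, Clozel) -/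
  induction : ∀ H M U U₀, A ≤ M → M ≤ H → (∀ h ∈ H, ∀ m ∈ M, h * m * h⁻¹ ∈ M) →
    (M.relIndex H).Prime → Stable R M U₀ → Stable R H U → IsInduced R M H U₀ U →
    aut M U₀ → aut H U

section key

variable {E : Type} [AddCommGroup E] [Module ℂ E] [FiniteDimensional ℂ V]
  {R : Representation ℂ W V} {S : Representation ℂ W E}

/-- A twist over `A` which extends to a representation of `H` is a twist over `H`. -/
theorem twist_up {A H : Subgroup W} [hN : A.Normal] (hAH : A ≤ H) {U : Submodule ℂ V}
    (hU : Stable R H U) (hirr : Irr R A U) (hS : NoSelfTwist S A) (ht : IsTwist R S A U) :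
    IsTwist R S H U := by
  obtain ⟨χ, e, he⟩ := ht
  have hUn : Nontrivial U := Submodule.nontrivial_iff_ne_bot.2 hirr.2.1
  have hEn : Nontrivial E := e.toEquiv.nontrivial
  have _ : FiniteDimensional ℂ E := LinearEquiv.finiteDimensional e.symm
  -- the representation of `H` on `E`
  let r' : H → (E →ₗ[ℂ] E) := fun h =>
    e.symm.toLinearMap ∘ₗ ((R (h : W)).restrict fun u hu => hU h h.2 u hu) ∘ₗ e.toLinearMap
  have hr' : ∀ (h : H) (v : E), (e (r' h v) : V) = R (h : W) (e v : V) := by
    intro h v
    simp [r']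
  have hinj : ∀ v w : E, (e v : V) = (e w : V) → v = w := fun v w h =>
    e.injective (Subtype.ext h)
  have hmul : ∀ (g h : H) (v : E), r' (g * h) v = r' g (r' h v) := by
    intro g h v
    apply hinj
    rw [hr', hr', hr', Subgroup.coe_mul, map_mul]
    rfl
  have hone : ∀ v : E, r' 1 v = v := by
    intro v
    apply hinj
    rw [hr']
    simp
  have hr'A : ∀ (a : A) (v : E), r' ⟨a, hAH a.2⟩ v = (χ a : ℂ) • S (a : W) v := by
    intro a v
    apply hinj
    rw [hr', he, map_smul]
    rfl
  have hSmul : ∀ (g h : W) (v : E), S (g * h) v = S g (S h v) := by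
    intro g h v
    rw [map_mul]
    rfl
  have hSinv : ∀ (g : W) (v : E), S g⁻¹ (S g v) = v := by
    intro g v
    rw [← hSmul, inv_mul_cancel, map_one]
    rfl
  have hSinv' : ∀ (g : W) (v : E), S g (S g⁻¹ v) = v := by
    intro g v
    rw [← hSmul, mul_inv_cancel, map_one]
    rfl
  -- the scalar
  have hscal : ∀ h : H, ∃ μ : ℂˣ, ∀ v : E, r' h v = (μ : ℂ) • S (h : W) v := by
    intro h
    -- the conjugate character
    let η : A →* ℂˣ :=
      { toFun := fun a => χ ⟨(h : W) * a * (h : W)⁻¹, hN.conj_mem a a.2 h⟩ * (χ a)⁻¹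
        map_one' := by
          have : (⟨(h : W) * ((1 : A) : W) * (h : W)⁻¹, hN.conj_mem _ (1 : A).2 h⟩ : A) = 1 := by
            apply Subtype.ext
            simp
          rw [this]
          simp
        map_mul' := by
          intro a b
          have : (⟨(h : W) * ((a * b : A) : W) * (h : W)⁻¹, hN.conj_mem _ (a * b).2 h⟩ : A)
              = ⟨(h : W) * a * (h : W)⁻¹, hN.conj_mem _ a.2 h⟩
                * ⟨(h : W) * b * (h : W)⁻¹, hN.conj_mem _ b.2 h⟩ := by
            apply Subtype.ext
            simp only [Subgroup.coe_mul]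
            group
          rw [this, map_mul, map_mul, mul_inv]
          exact mul_mul_mul_comm _ _ _ _ }
    let T : E ≃ₗ[ℂ] E := LinearEquiv.ofLinear ((S (h : W)⁻¹) ∘ₗ r' h) (r' h⁻¹ ∘ₗ S (h : W))
      (by
        refine LinearMap.ext fun v => ?_
        show S (h : W)⁻¹ (r' h (r' h⁻¹ (S (h : W) v))) = v
        rw [← hmul, mul_inv_cancel, hone, hSinv])
      (by
        refine LinearMap.ext fun v => ?_
        show r' h⁻¹ (S (h : W) (S (h : W)⁻¹ (r' h v))) = v
        rw [hSinv', ← hmul, inv_mul_cancel, hone])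
    have hT : ∀ v, T v = S (h : W)⁻¹ (r' h v) := fun v => rfl
    have key : ∀ (a : A) (v : E), T (S (a : W) v) = (η a : ℂ) • S (a : W) (T v) := by
      intro a v
      set b : A := ⟨(h : W) * a * (h : W)⁻¹, hN.conj_mem a a.2 h⟩ with hb
      have hη : η a = χ b * (χ a)⁻¹ := rfl
      have h1 : r' h (r' ⟨a, hAH a.2⟩ v) = r' ⟨b, hAH b.2⟩ (r' h v) := by
        rw [← hmul, ← hmul]
        congr 1
        congr 1
        apply Subtype.ext
        simp [hb]
      rw [hr'A, hr'A, map_smul] at h1
      have h2 : r' h (S (a : W) v) = ((χ a : ℂ)⁻¹ * (χ b : ℂ)) • S (b : W) (r' h v) := by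
        rw [mul_smul, ← h1, smul_smul, inv_mul_cancel₀ (Units.ne_zero _), one_smul]
      rw [hT, h2, map_smul, hT, ← hSmul, ← hSmul, hη]
      have h3 : (h : W)⁻¹ * (b : W) = (a : W) * (h : W)⁻¹ := by
        simp [hb, mul_assoc]
      rw [h3]
      congr 1
      push_cast
      ring
    have hη1 : η = 1 := hS η ⟨T, key⟩
    have hcommT : ∀ (a : A) (v : E), T (S (a : W) v) = S (a : W) (T v) := by
      intro a v
      rw [key, hη1]
      simp
    obtain ⟨μ, hμ⟩ := Module.End.exists_eigenvalue (T : Module.End ℂ E)
    -- the eigenspace is everything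
    let X : Submodule ℂ V := ((Module.End.eigenspace (T : Module.End ℂ E) μ).map
      e.toLinearMap).map U.subtype
    have hXU : X ≤ U := by
      rintro _ ⟨u, _, rfl⟩
      exact u.2
    have hXst : Stable R A X := by
      rintro a ha _ ⟨_, ⟨v, hv, rfl⟩, rfl⟩
      refine ⟨e (r' ⟨a, hAH ha⟩ v), ⟨_, ?_, rfl⟩, hr' _ _⟩
      have hv' : T v = μ • v := Module.End.mem_eigenspace_iff.1 hv
      have h1 := hr'A ⟨a, ha⟩ v
      refine Module.End.mem_eigenspace_iff.2 ?_
      show T (r' ⟨a, hAH ha⟩ v) = μ • r' ⟨a, hAH ha⟩ v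
      rw [h1, map_smul, hcommT ⟨a, ha⟩ v, hv', map_smul, smul_comm]
    have hX : X = U := by
      rcases hirr.2.2 X hXU hXst with h0 | h0
      · exfalso
        obtain ⟨v, hv, hv0⟩ := hμ.exists_hasEigenvector
        have h1 : ((e v : U) : V) ∈ X := ⟨e v, ⟨v, hv, rfl⟩, rfl⟩
        rw [h0, Submodule.mem_bot] at h1
        apply hv0
        apply hinj
        rw [h1, map_zero]
        rfl
      · exact h0
    have hTμ : ∀ v, T v = μ • v := by
      intro v
      have h1 : ((e v : U) : V) ∈ X := by
        rw [hX]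
        exact (e v).2
      obtain ⟨_, ⟨w, hw, rfl⟩, hwv⟩ := h1
      have h2 : w = v := hinj _ _ hwv
      rw [← h2]
      exact Module.End.mem_eigenspace_iff.1 hw
    have hμ0 : μ ≠ 0 := by
      rintro rfl
      obtain ⟨v, hv⟩ := exists_ne (0 : E)
      apply hv
      apply T.injective
      rw [hTμ, zero_smul, map_zero]
    refine ⟨Units.mk0 μ hμ0, fun v => ?_⟩
    have h1 := congrArg (S (h : W)) (hTμ v)
    rw [hT, hSinv', map_smul] at h1
    exact h1
  choose μ hμ using hscal
  obtain ⟨v₀, hv₀⟩ := exists_ne (0 : E)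
  have hne : ∀ g : W, S g v₀ ≠ 0 := by
    intro g h
    apply hv₀
    rw [← hSinv g v₀, h, map_zero]
  refine ⟨⟨⟨μ, ?_⟩, ?_⟩, e, ?_⟩
  · have h1 := hμ 1 v₀
    rw [hone] at h1
    have h2 : S ((1 : H) : W) v₀ = v₀ := by
      rw [Subgroup.coe_one, map_one]
      rfl
    rw [h2] at h1
    have h3 : ((μ 1 : ℂ) - 1) • v₀ = 0 := by
      rw [sub_smul, one_smul, ← h1, sub_self]
    rcases smul_eq_zero.1 h3 with h4 | h4
    · exact Units.ext (by rw [Units.val_one]; exact sub_eq_zero.1 h4)
    · exact absurd h4 hv₀
  · intro g h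
    have h1 := hμ (g * h) v₀
    rw [hmul, hμ h, map_smul, hμ g, smul_smul, ← hSmul, ← Subgroup.coe_mul] at h1
    have h3 : (((μ h : ℂ) * (μ g : ℂ)) - (μ (g * h) : ℂ)) • S ((g * h : H) : W) v₀ = 0 := by
      rw [sub_smul, h1, sub_self]
    rcases smul_eq_zero.1 h3 with h4 | h4
    · refine Units.ext ?_
      show (μ (g * h) : ℂ) = ((μ g * μ h : ℂˣ) : ℂ)
      rw [Units.val_mul, mul_comm]
      exact (sub_eq_zero.1 h4).symm
    · exact absurd h4 (hne _)
  · intro h v
    rw [← hr', hμ, map_smul]
    rfl

end key

/-- **Twists over a nilpotent extension.** Let `W / A` be finite and nilpotent and let `S_i` be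
representations of `W` without nontrivial selftwists over `A`. Let `R` be an irreducible
representation of `W` all of whose irreducible constituents over `A` are twists of some `S_i`. Then
`R` is automorphic, for every notion of automorphy with the known theorems. -/
theorem result {ι : Type} {E : ι → Type} [∀ i, AddCommGroup (E i)] [∀ i, Module ℂ (E i)]
    [FiniteDimensional ℂ V] (A : Subgroup W) [A.Normal] [Finite (W ⧸ A)]
    [Group.IsNilpotent (W ⧸ A)] (R : Representation ℂ W V) (hR : Irr R ⊤ ⊤)
    (S : ∀ i, Representation ℂ W (E i)) (hS : ∀ i, NoSelfTwist (S i) A)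
    (hA : ∀ U : Submodule ℂ V, Irr R A U → ∃ i, IsTwist R (S i) A U)
    (aut : Subgroup W → Submodule ℂ V → Prop) (haut : KnownTheorems R A S aut) :
    aut ⊤ ⊤ := by
  classical
  let c : Representation ℂ Unit V := 1
  have hcomm : ∀ w k, Commute (R w) (c k) := fun w k => Commute.one_right _
  have hst : ∀ H U, Pool.Agent.Q63.FL.Stable R c H U ↔ Stable R H U := fun H U =>
    ⟨fun h => h.1, fun h => ⟨h, fun _ u hu => hu⟩⟩
  have hir : ∀ H U, Pool.Agent.Q63.FL.Irr R c H U ↔ Irr R H U := by
    intro H U
    constructor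
    · rintro ⟨h1, h2, h3⟩
      exact ⟨(hst H U).1 h1, h2, fun U' hle hs => h3 U' hle ((hst H U').2 hs)⟩
    · rintro ⟨h1, h2, h3⟩
      exact ⟨(hst H U).2 h1, h2, fun U' hle hs => h3 U' hle ((hst H U').1 hs)⟩
  have main : ∀ (n : ℕ) {H : Subgroup W} {U : Submodule ℂ V}, A ≤ H → Irr R H U →
      Module.finrank ℂ U ≤ n → aut H U := by
    intro n
    induction n with
    | zero =>
      intro H U _ hU hn
      exfalso
      apply hU.2.1
      rw [← Submodule.finrank_eq_zero (R := ℂ)]
      omega
    | succ n ih =>
      intro H U hAH hU hn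
      by_cases h1 : Irr R A U
      · obtain ⟨i, hi⟩ := hA U h1
        exact haut.twist H U i hAH hU.1 (twist_up hAH hU.1 h1 (hS i) hi)
      · obtain ⟨M, U₀, hAM, hMH, hMn, hMp, hind, hirr, hlt⟩ :=
          Pool.Agent.Q112.FL.imprim hcomm hAH ((hir H U).2 hU) (fun h => h1 ((hir A U).1 h))
        exact haut.induction H M U U₀ hAM hMH hMn hMp ((hir M U₀).1 hirr).1 hU.1 hind
          (ih hAM ((hir M U₀).1 hirr) (by omega))
  exact main _ le_top hR le_rfl

end Pool.Agent.Results.MP_adf543_nt.TwistsOverNilpotent
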